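import Pool.Agent.Lib.MP_6cc1fa_pr.SM.GapF
import Pool.Agent.Lib.MP_6cc1fa_pr.Wrap

/-!
MP_6cc1fa_pr: gaps between the degrees of the irreducible factors of random polynomials over
`F_p`.

For every prime `p` and all coefficient distributions `μ` with `max μ ≤ 1 - η`: the fundamental
lemma of the sieve with relative error, up to degrees of the order of `n`; the probability that
`f_n` has no irreducible factor of degree in `(k, m]` is of order `(k + 1) / (m + 1)`; `f_n` has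
`r` different irreducible factors of degree larger than `x n` with probability at least
`1 - O(r x^(1 / r))`.
-/

set_option autoImplicit false

namespace Pool.Agent.Results.MP_6cc1fa_pr.FactorGaps

open Polynomial MeasureTheory ProbabilityTheory

noncomputable section

/-- The random polynomial `f_n = ∑_{i ≤ n} ε_i X^i`. -/
def f {p : ℕ} {Ω : Type} (ε : ℕ → Ω → ZMod p) (n : ℕ) (ω : Ω) : (ZMod p)[X] :=
  ∑ i ∈ Finset.range (n + 1), C (ε i ω) * X ^ i

/-- The coefficients `ε_0, ε_1, …` are independent random variables with law `μ` on the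
probability space `(Ω, P)`. -/
structure IsIID {p : ℕ} (Ω : Type) [MeasurableSpace Ω] (P : Measure Ω) (μ : ZMod p → ℝ)
    (ε : ℕ → Ω → ZMod p) : Prop where
  prob : IsProbabilityMeasure P
  meas : ∀ i, Measurable (ε i)
  indep : iIndepFun ε P
  law : ∀ i x, P.real {ω | ε i ω = x} = μ x

/-- `g` has no irreducible factor of degree in `(k, m]`, other than the multiples of `X` by
constants. -/
def NoFactor {p : ℕ} (k m : ℕ) (g : (ZMod p)[X]) : Prop :=
  ∀ Q : (ZMod p)[X], Irreducible Q → Q.coeff 0 ≠ 0 → k < Q.natDegree → Q.natDegree ≤ m → ¬ Q ∣ g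

/-- `g ≠ 0` and `g` has `r` different monic irreducible divisors, other than `X`, of degree larger
than `y`. -/
def Many {p : ℕ} (r : ℕ) (y : ℝ) (g : (ZMod p)[X]) : Prop :=
  g ≠ 0 ∧ ∃ T : Finset (ZMod p)[X], T.card = r ∧
    ∀ Q ∈ T, Q.Monic ∧ Irreducible Q ∧ Q ≠ X ∧ y < (Q.natDegree : ℝ) ∧ Q ∣ g

open Pool.Agent.MP6cc1fa (pol PR Law PP GS ND VV mem_GS sm8_mem_PP sm8_coeff_zero
  GS_subset PR_mono MF gap_fundamental gap_upper gap_lower gap_many)

variable {p : ℕ} [Fact p.Prime]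

/-- Probabilities of events given by the random polynomial. -/
private theorem real_eq {Ω : Type} [MeasurableSpace Ω] {P : Measure Ω} {μ : ZMod p → ℝ}
    {ε : ℕ → Ω → ZMod p} (h : IsIID Ω P μ ε) (n : ℕ) (Z : Set (ZMod p)[X]) :
    P.real {ω | f ε n ω ∈ Z} = PR μ (n + 1) Z := by
  classical
  have := h.prob
  have h1 := Pool.Agent.MP6cc1fa.integral_eq_EE μ Ω P ε h.meas h.indep h.law
    (fun g => if g ∈ Z then (1 : ℝ) else 0) (n + 1)
  have hmeas : MeasurableSet {ω | f ε n ω ∈ Z} := by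
    have hX : Measurable (fun ω (i : Fin (n + 1)) => ε (i : ℕ) ω) :=
      measurable_pi_iff.2 fun i => h.meas i
    have e : {ω | f ε n ω ∈ Z} = (fun ω (i : Fin (n + 1)) => ε (i : ℕ) ω) ⁻¹'
        {a | ∑ i : Fin (n + 1), C (a i) * X ^ (i : ℕ) ∈ Z} := by
      ext ω
      simp only [Set.mem_ofPred_eq, Set.mem_preimage, f]
      rw [Fin.sum_univ_eq_sum_range (fun i => C (ε i ω) * X ^ i) (n + 1)]
    rw [e]
    exact hX (Set.toFinite _).measurableSet
  have h2 : P.real {ω | f ε n ω ∈ Z} =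
      ∫ ω, (if ∑ i ∈ Finset.range (n + 1), C (ε i ω) * X ^ i ∈ Z then (1 : ℝ) else 0) ∂P := by
    rw [← integral_indicator_one hmeas]
    refine integral_congr_ae (Filter.Eventually.of_forall fun ω => ?_)
    by_cases h3 : ∑ i ∈ Finset.range (n + 1), C (ε i ω) * X ^ i ∈ Z
    · rw [Set.indicator_of_mem (show ω ∈ {ω | f ε n ω ∈ Z} from h3)]
      exact (if_pos h3).symm
    · rw [Set.indicator_of_notMem (show ω ∉ {ω | f ε n ω ∈ Z} from h3)]
      exact (if_neg h3).symm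
  rw [h2, h1]
  unfold _root_.MP6cc1fa.EE PR
  refine Finset.sum_congr rfl fun a _ => ?_
  by_cases h4 : pol a ∈ Z
  · rw [if_pos h4]
    have h5 : _root_.MP6cc1fa.poly a ∈ Z := h4
    simp only
    rw [if_pos h5, mul_one]
  · rw [if_neg h4]
    have h5 : _root_.MP6cc1fa.poly a ∉ Z := h4
    simp only
    rw [if_neg h5, mul_zero]

omit [Fact p.Prime] in
private theorem law_nonneg {Ω : Type} [MeasurableSpace Ω] {P : Measure Ω} {μ : ZMod p → ℝ}
    {ε : ℕ → Ω → ZMod p} (h : IsIID Ω P μ ε) (x : ZMod p) : 0 ≤ μ x := by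
  rw [← h.law 0 x]
  exact measureReal_nonneg

private theorem law_sum {Ω : Type} [MeasurableSpace Ω] {P : Measure Ω} {μ : ZMod p → ℝ}
    {ε : ℕ → Ω → ZMod p} (h : IsIID Ω P μ ε) : ∑ x, μ x = 1 := by
  have := h.prob
  have h1 := Pool.Agent.MP6cc1fa.integral_eq_EE μ Ω P ε h.meas h.indep h.law
    (fun _ => (1 : ℝ)) 1
  unfold _root_.MP6cc1fa.EE at h1
  simp only [mul_one, integral_const, probReal_univ, smul_eq_mul] at h1
  have h2 : ∑ a : Fin 1 → ZMod p, ∏ i, μ (a i) = ∏ _i : Fin 1, ∑ x, μ x := by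
    rw [Finset.prod_univ_sum, Fintype.piFinset_univ]
  rw [h2] at h1
  simpa using h1.symm

private theorem noFactor_iff (k m : ℕ) (g : (ZMod p)[X]) :
    NoFactor k m g ↔ g ∈ ND (GS p k m) := by
  constructor
  · intro h P hP
    obtain ⟨hPm, hP0, hP1, hP2, hP3⟩ := mem_GS.1 hP
    exact h P hP2 (sm8_coeff_zero (GS_subset k m hP)) hP0 hP1
  · intro h Q hQ hQ0 hQ1 hQ2 hd
    have hlc : Q.leadingCoeff ≠ 0 := leadingCoeff_ne_zero.2 hQ.ne_zero
    have hdvd : Q * C (Q.leadingCoeff)⁻¹ ∣ g := by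
      have hu : IsUnit (C (Q.leadingCoeff)⁻¹ : (ZMod p)[X]) :=
        isUnit_C.2 (isUnit_iff_ne_zero.2 (inv_ne_zero hlc))
      exact (hu.mul_right_dvd).2 hd
    refine h (Q * C (Q.leadingCoeff)⁻¹) (mem_GS.2 ⟨monic_mul_leadingCoeff_inv hQ.ne_zero,
      ?_, ?_, ?_, ?_⟩) hdvd
    · rw [natDegree_mul_leadingCoeff_inv _ hQ.ne_zero]; exact hQ1
    · rw [natDegree_mul_leadingCoeff_inv _ hQ.ne_zero]; exact hQ2
    · have hu : IsUnit (C (Q.leadingCoeff)⁻¹ : (ZMod p)[X]) :=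
        isUnit_C.2 (isUnit_iff_ne_zero.2 (inv_ne_zero hlc))
      exact (irreducible_mul_isUnit hu).2 hQ
    · intro hX
      have h1 := congrArg (fun q : (ZMod p)[X] => q.coeff 0) hX
      simp only [coeff_mul_C, coeff_X_zero] at h1
      exact mul_ne_zero hQ0 (inv_ne_zero hlc) h1

/-- **Gaps between the factor degrees of random polynomials over `F_p`, for all primes `p` and all
coefficient distributions.** -/
theorem result (p : ℕ) [Fact p.Prime] (η : ℝ) (hη : 0 < η) :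
    ∃ A c θ : ℝ, 0 < A ∧ 0 < c ∧ 0 < θ ∧
      ∀ (Ω : Type) [MeasurableSpace Ω] (P : Measure Ω) (μ : ZMod p → ℝ) (ε : ℕ → Ω → ZMod p),
        IsIID Ω P μ ε → (∀ x, μ x ≤ 1 - η) → ∀ n : ℕ, 1 ≤ n →
          (∀ m : ℕ, 1 ≤ m → m ≤ n → ∀ S : Finset (ZMod p)[X],
            (∀ Q ∈ S, Q.Monic ∧ Irreducible Q ∧ Q ≠ X ∧ Q.natDegree ≤ m) →
              |P.real {ω | ∀ Q ∈ S, ¬ Q ∣ f ε n ω} -
                ∏ Q ∈ S, (1 - 1 / (p : ℝ) ^ Q.natDegree)| ≤
                A * (Real.exp (-c * n / m) * ∏ Q ∈ S, (1 - 1 / (p : ℝ) ^ Q.natDegree) +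
                  Real.exp (-c * Real.sqrt n))) ∧
          (∀ k m : ℕ, k ≤ m → m ≤ n →
            P.real {ω | NoFactor k m (f ε n ω)} ≤ A * (((k : ℝ) + 1) / (m + 1))) ∧
          (∀ k m : ℕ, k ≤ m → (m : ℝ) ≤ θ * n →
            c * (((k : ℝ) + 1) / (m + 1)) ≤ P.real {ω | NoFactor k m (f ε n ω)}) ∧
          (∀ r : ℕ, 1 ≤ r → ∀ x : ℝ, 1 ≤ x * n → x ≤ 1 →
            1 - A * r * x ^ ((1 : ℝ) / r) ≤ P.real {ω | Many r (x * n) (f ε n ω)}) := by
  classical
  obtain ⟨A₁, c₁, hA₁, hc₁, H₁⟩ := gap_fundamental (p := p) hη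
  obtain ⟨A₂, hA₂, H₂⟩ := gap_upper (p := p) hη
  obtain ⟨c₃, θ₃, hc₃, hθ₃, H₃⟩ := gap_lower (p := p) hη
  obtain ⟨A₆, hA₆, H₆⟩ := gap_many (p := p) hη
  have hA₂' : 0 < A₂ := by linarith
  set c : ℝ := min 1 (min c₁ c₃) with hc
  have hc0 : 0 < c := lt_min one_pos (lt_min hc₁ hc₃)
  have hcle1 : c ≤ 1 := min_le_left _ _
  have hcle2 : c ≤ c₁ := (min_le_right _ _).trans (min_le_left _ _)
  have hcle3 : c ≤ c₃ := (min_le_right _ _).trans (min_le_right _ _)
  refine ⟨A₁ + A₂ + A₆, c, θ₃, by positivity, hc0, hθ₃,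
    fun Ω _ P μ ε h hμ n hn => ?_⟩
  have hL : Law η μ := ⟨law_nonneg h, law_sum h, hμ⟩
  have hn0 : (0 : ℝ) < n := by exact_mod_cast hn
  have hnn : ((n + 1 : ℕ) : ℝ) = (n : ℝ) + 1 := by push_cast; ring
  have hNF : ∀ k m : ℕ, P.real {ω | NoFactor k m (f ε n ω)} = PR μ (n + 1) (ND (GS p k m)) := by
    intro k m
    rw [← real_eq h]
    simp only [noFactor_iff]
  refine ⟨fun m hm hmn S hS => ?_, fun k m hkm hmn => ?_, fun k m hkm hmn => ?_,
    fun r hr x hxn hx1 => ?_⟩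
  · have hS' : S ⊆ PP p m := fun Q hQ => by
      obtain ⟨h1, h2, h3, h4⟩ := hS Q hQ
      exact sm8_mem_PP.2 ⟨h1, h2, h4, h3⟩
    have h1 := H₁ μ hL (n + 1) m hm (by omega) S hS'
    rw [← real_eq h] at h1
    have hV0 : 0 ≤ VV S := Pool.Agent.MP6cc1fa.VV_nonneg hS'
    have hm0 : (0 : ℝ) < m := by exact_mod_cast hm
    have e1 : Real.exp (-c₁ * ((n + 1 : ℕ) : ℝ) / m) ≤ Real.exp (-c * n / m) := by
      rw [Real.exp_le_exp, hnn]
      refine div_le_div_of_nonneg_right ?_ hm0.le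
      nlinarith
    have e2 : Real.exp (-c₁ * Real.sqrt ((n + 1 : ℕ) : ℝ)) ≤ Real.exp (-c * Real.sqrt n) := by
      rw [Real.exp_le_exp, hnn]
      have h2 : Real.sqrt n ≤ Real.sqrt ((n : ℝ) + 1) := Real.sqrt_le_sqrt (by linarith)
      have h3 : 0 ≤ Real.sqrt n := Real.sqrt_nonneg _
      nlinarith
    have h2 : Real.exp (-c₁ * ((n + 1 : ℕ) : ℝ) / m) * VV S +
        Real.exp (-c₁ * Real.sqrt ((n + 1 : ℕ) : ℝ)) ≤
        Real.exp (-c * n / m) * VV S + Real.exp (-c * Real.sqrt n) :=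
      add_le_add (mul_le_mul_of_nonneg_right e1 hV0) e2
    have h3 : 0 ≤ Real.exp (-c * n / m) * VV S + Real.exp (-c * Real.sqrt n) :=
      add_nonneg (mul_nonneg (Real.exp_pos _).le hV0) (Real.exp_pos _).le
    have h4 : |P.real {ω | f ε n ω ∈ ND S} - VV S| ≤
        (A₁ + A₂ + A₆) * (Real.exp (-c * n / m) * VV S + Real.exp (-c * Real.sqrt n)) := by
      refine h1.trans ((mul_le_mul_of_nonneg_left h2 hA₁.le).trans ?_)
      exact mul_le_mul_of_nonneg_right (by linarith) h3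
    exact h4
  · rw [hNF]
    refine (H₂ μ hL (n + 1) k m hkm (by omega)).trans ?_
    exact mul_le_mul_of_nonneg_right (by linarith) (by positivity)
  · rcases Nat.eq_zero_or_pos m with hm | hm
    · have hk : k = 0 := by omega
      subst hm hk
      have h1 : {ω | NoFactor 0 0 (f ε n ω)} = Set.univ := by
        refine Set.eq_univ_of_forall fun ω Q _ _ h1 h2 => ?_
        omega
      have := h.prob
      rw [h1, probReal_univ]
      simpa using hcle1
    · rw [hNF]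
      refine le_trans ?_ (H₃ μ hL (n + 1) k m hm hkm ?_)
      · exact mul_le_mul_of_nonneg_right hcle3 (by positivity)
      · rw [hnn]
        linarith
  · have hx0 : 0 < x := by
      by_contra h1
      have : x * n ≤ 0 := mul_nonpos_of_nonpos_of_nonneg (not_lt.1 h1) hn0.le
      linarith
    have hxN : x * n ≤ x * ((n + 1 : ℕ) : ℝ) := by
      rw [hnn]
      nlinarith
    have h1 := H₆ μ hL (n + 1) r hr x (hxn.trans hxN) hx1
    have h2 : PR μ (n + 1) {g | g ∉ {g | Many r (x * n) g}} ≤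
        PR μ (n + 1) {g | g ∉ MF p r (x * ((n + 1 : ℕ) : ℝ))} := by
      refine PR_mono hL.nn (n + 1) fun g hg hg' => hg ?_
      obtain ⟨hg0, T, hT1, hT2⟩ := hg'
      refine ⟨hg0, T, hT1, fun Q hQ => ?_⟩
      obtain ⟨h1, h2, h3, h4, h5⟩ := hT2 Q hQ
      exact ⟨h1, h2, h3, lt_of_le_of_lt hxN h4, h5⟩
    have h3 : PR μ (n + 1) {g | g ∉ {g | Many r (x * n) g}} +
        PR μ (n + 1) {g | Many r (x * n) g} = 1 := by
      rw [← Pool.Agent.MP6cc1fa.PR_univ hL.one (n + 1)]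
      unfold PR
      rw [← Finset.sum_add_distrib]
      refine Finset.sum_congr rfl fun a _ => ?_
      rw [if_pos (Set.mem_univ _)]
      by_cases h4 : pol a ∈ {g | Many r (x * n) g}
      · rw [if_pos h4, if_neg (fun h5 : pol a ∈ {g | g ∉ {g | Many r (x * n) g}} => h5 h4),
          zero_add]
      · rw [if_neg h4, if_pos (show pol a ∈ {g | g ∉ {g | Many r (x * n) g}} from h4), add_zero]
    have h4 : P.real {ω | Many r (x * n) (f ε n ω)} = PR μ (n + 1) {g | Many r (x * n) g} := by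
      rw [← real_eq h]
      rfl
    rw [h4]
    have h5 : 0 ≤ (r : ℝ) * x ^ ((1 : ℝ) / r) :=
      mul_nonneg (Nat.cast_nonneg r) (Real.rpow_nonneg hx0.le _)
    have h6 : A₆ * r * x ^ ((1 : ℝ) / r) ≤
        (A₁ + A₂ + A₆) * r * x ^ ((1 : ℝ) / r) := by
      rw [mul_assoc, mul_assoc]
      exact mul_le_mul_of_nonneg_right (by linarith) h5
    linarith

end

end Pool.Agent.Results.MP_6cc1fa_pr.FactorGaps
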