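import Pool.Agent.Lib.MP_6cc1fa_pr.SM.GapG
import Pool.Agent.Lib.MP_6cc1fa_pr.Wrap

/-!
MP_6cc1fa_pr: large irreducible factors of random polynomials over `F_p`.

For every prime `p`, all coefficient distributions `μ` with `max μ ≤ 1 - η` and every set `G` of
monic polynomials of degree `j ≤ θ n` with nonzero constant term: for `j ≤ m ≤ θ n` the
probability that `f_n` is the product of an element of `G` and of a polynomial without irreducible
factors of degree at most `m` other than `X` has the order of `|G| p^(-j) / m`, up to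
`O(exp (-c √n))`; `f_n` is a power of `X` times an irreducible polynomial times an element of `G`
with probability at most `A (|G| p^(-j) / n + exp (-c √n))`; and `f_n` is an irreducible factor
times a cofactor of degree at most `k` with probability `O((k + 1) / n)`, for each `k`.
-/

set_option autoImplicit false

namespace Pool.Agent.Results.MP_6cc1fa_pr.LargestFactor

open Polynomial MeasureTheory ProbabilityTheory

noncomputable section

/-- The random polynomial `f_n = ∑_{i ≤ n} ε_i X^i`. -/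
def f {p : ℕ} {Ω : Type} (ε : ℕ → Ω → ZMod p) (n : ℕ) (ω : Ω) : (ZMod p)[X] :=
  ∑ i ∈ Finset.range (n + 1), C (ε i ω) * X ^ i

/-- The coefficients `ε_0, ε_1, …` are independent random variables with law `μ` on the
probability space `(Ω, P)`. -/
structure IsIID {p : ℕ} (Ω : Type) [MeasurableSpace Ω] (P : Measure Ω) (μ : ZMod p → ℝ)
    (ε : ℕ → Ω → ZMod p) : Prop where
  prob : IsProbabilityMeasure P
  meas : ∀ i, Measurable (ε i)
  indep : iIndepFun ε P
  law : ∀ i x, P.real {ω | ε i ω = x} = μ x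

/-- `g ≠ 0` and `g = Q * h` with `Q` irreducible and `h` of degree at most `k`. -/
def Large {p : ℕ} (k : ℕ) (g : (ZMod p)[X]) : Prop :=
  g ≠ 0 ∧ ∃ Q h : (ZMod p)[X], Irreducible Q ∧ h.natDegree ≤ k ∧ g = Q * h

/-- `g ≠ 0` and `g = R * h` with `h ∈ G` and `R` without irreducible factor of degree at most `m`
other than the multiples of `X` by constants. -/
def Rough {p : ℕ} (m : ℕ) (G : Finset (ZMod p)[X]) (g : (ZMod p)[X]) : Prop :=
  g ≠ 0 ∧ ∃ R h : (ZMod p)[X], h ∈ G ∧ g = R * h ∧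
    ∀ Q : (ZMod p)[X], Irreducible Q → Q.coeff 0 ≠ 0 → Q.natDegree ≤ m → ¬ Q ∣ R

/-- `g = X ^ v * Q * h` with `Q` irreducible and `h ∈ G`. -/
def Shape {p : ℕ} (G : Finset (ZMod p)[X]) (g : (ZMod p)[X]) : Prop :=
  ∃ (v : ℕ) (Q h : (ZMod p)[X]), Irreducible Q ∧ h ∈ G ∧ g = X ^ v * Q * h

open Pool.Agent.MP6cc1fa (pol PR Law LF CF RF PP sm8_mem_PP sm8_coeff_zero gap_large gap_shape
  gap_rough)

variable {p : ℕ} [Fact p.Prime]

/-- Probabilities of events given by the random polynomial. -/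
private theorem real_eq {Ω : Type} [MeasurableSpace Ω] {P : Measure Ω} {μ : ZMod p → ℝ}
    {ε : ℕ → Ω → ZMod p} (h : IsIID Ω P μ ε) (n : ℕ) (Z : Set (ZMod p)[X]) :
    P.real {ω | f ε n ω ∈ Z} = PR μ (n + 1) Z := by
  classical
  have := h.prob
  have h1 := Pool.Agent.MP6cc1fa.integral_eq_EE μ Ω P ε h.meas h.indep h.law
    (fun g => if g ∈ Z then (1 : ℝ) else 0) (n + 1)
  have hmeas : MeasurableSet {ω | f ε n ω ∈ Z} := by
    have hX : Measurable (fun ω (i : Fin (n + 1)) => ε (i : ℕ) ω) :=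
      measurable_pi_iff.2 fun i => h.meas i
    have e : {ω | f ε n ω ∈ Z} = (fun ω (i : Fin (n + 1)) => ε (i : ℕ) ω) ⁻¹'
        {a | ∑ i : Fin (n + 1), C (a i) * X ^ (i : ℕ) ∈ Z} := by
      ext ω
      simp only [Set.mem_ofPred_eq, Set.mem_preimage, f]
      rw [Fin.sum_univ_eq_sum_range (fun i => C (ε i ω) * X ^ i) (n + 1)]
    rw [e]
    exact hX (Set.toFinite _).measurableSet
  have h2 : P.real {ω | f ε n ω ∈ Z} =
      ∫ ω, (if ∑ i ∈ Finset.range (n + 1), C (ε i ω) * X ^ i ∈ Z then (1 : ℝ) else 0) ∂P := by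
    rw [← integral_indicator_one hmeas]
    refine integral_congr_ae (Filter.Eventually.of_forall fun ω => ?_)
    by_cases h3 : ∑ i ∈ Finset.range (n + 1), C (ε i ω) * X ^ i ∈ Z
    · rw [Set.indicator_of_mem (show ω ∈ {ω | f ε n ω ∈ Z} from h3)]
      exact (if_pos h3).symm
    · rw [Set.indicator_of_notMem (show ω ∉ {ω | f ε n ω ∈ Z} from h3)]
      exact (if_neg h3).symm
  rw [h2, h1]
  unfold _root_.MP6cc1fa.EE PR
  refine Finset.sum_congr rfl fun a _ => ?_
  by_cases h4 : pol a ∈ Z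
  · rw [if_pos h4]
    have h5 : _root_.MP6cc1fa.poly a ∈ Z := h4
    simp only
    rw [if_pos h5, mul_one]
  · rw [if_neg h4]
    have h5 : _root_.MP6cc1fa.poly a ∉ Z := h4
    simp only
    rw [if_neg h5, mul_zero]

omit [Fact p.Prime] in
private theorem law_nonneg {Ω : Type} [MeasurableSpace Ω] {P : Measure Ω} {μ : ZMod p → ℝ}
    {ε : ℕ → Ω → ZMod p} (h : IsIID Ω P μ ε) (x : ZMod p) : 0 ≤ μ x := by
  rw [← h.law 0 x]
  exact measureReal_nonneg

private theorem law_sum {Ω : Type} [MeasurableSpace Ω] {P : Measure Ω} {μ : ZMod p → ℝ}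
    {ε : ℕ → Ω → ZMod p} (h : IsIID Ω P μ ε) : ∑ x, μ x = 1 := by
  have := h.prob
  have h1 := Pool.Agent.MP6cc1fa.integral_eq_EE μ Ω P ε h.meas h.indep h.law
    (fun _ => (1 : ℝ)) 1
  unfold _root_.MP6cc1fa.EE at h1
  simp only [mul_one, integral_const, probReal_univ, smul_eq_mul] at h1
  have h2 : ∑ a : Fin 1 → ZMod p, ∏ i, μ (a i) = ∏ _i : Fin 1, ∑ x, μ x := by
    rw [Finset.prod_univ_sum, Fintype.piFinset_univ]
  rw [h2] at h1
  simpa using h1.symm

private theorem large_iff (k : ℕ) (g : (ZMod p)[X]) : Large k g ↔ g ∈ LF p k := by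
  constructor
  · rintro ⟨hg, Q, h, hQ, hk, rfl⟩
    refine ⟨hg, Q, hQ, dvd_mul_right _ _, ?_⟩
    rw [natDegree_mul hQ.ne_zero (right_ne_zero_of_mul hg)]
    omega
  · rintro ⟨hg, Q, hQ, ⟨h, rfl⟩, hk⟩
    refine ⟨hg, Q, h, hQ, ?_, rfl⟩
    rw [natDegree_mul hQ.ne_zero (right_ne_zero_of_mul hg)] at hk
    omega

private theorem free_iff (m : ℕ) (R : (ZMod p)[X]) :
    (∀ Q : (ZMod p)[X], Irreducible Q → Q.coeff 0 ≠ 0 → Q.natDegree ≤ m → ¬ Q ∣ R) ↔
      ∀ P ∈ PP p m, ¬ P ∣ R := by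
  constructor
  · intro h P hP
    obtain ⟨hPm, hP2, hP1, hP3⟩ := sm8_mem_PP.1 hP
    exact h P hP2 (sm8_coeff_zero hP) hP1
  · intro h Q hQ hQ0 hQ2 hd
    have hlc : Q.leadingCoeff ≠ 0 := leadingCoeff_ne_zero.2 hQ.ne_zero
    have hu : IsUnit (C (Q.leadingCoeff)⁻¹ : (ZMod p)[X]) :=
      isUnit_C.2 (isUnit_iff_ne_zero.2 (inv_ne_zero hlc))
    have hdvd : Q * C (Q.leadingCoeff)⁻¹ ∣ R := (hu.mul_right_dvd).2 hd
    refine h (Q * C (Q.leadingCoeff)⁻¹) (sm8_mem_PP.2 ⟨monic_mul_leadingCoeff_inv hQ.ne_zero,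
      ?_, ?_, ?_⟩) hdvd
    · exact (irreducible_mul_isUnit hu).2 hQ
    · rw [natDegree_mul_leadingCoeff_inv _ hQ.ne_zero]; exact hQ2
    · intro hX
      have h1 := congrArg (fun q : (ZMod p)[X] => q.coeff 0) hX
      simp only [coeff_mul_C, coeff_X_zero] at h1
      exact mul_ne_zero hQ0 (inv_ne_zero hlc) h1

private theorem rough_iff (m : ℕ) (G : Finset (ZMod p)[X]) (g : (ZMod p)[X]) :
    Rough m G g ↔ g ∈ RF p m G := by
  unfold Rough
  simp only [free_iff]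
  rfl

/-- **Large irreducible factors of random polynomials over `F_p`, for all primes `p` and all
coefficient distributions.** -/
theorem result (p : ℕ) [Fact p.Prime] (η : ℝ) (hη : 0 < η) :
    ∃ A c θ : ℝ, 0 < A ∧ 0 < c ∧ 0 < θ ∧
      ∀ (Ω : Type) [MeasurableSpace Ω] (P : Measure Ω) (μ : ZMod p → ℝ) (ε : ℕ → Ω → ZMod p),
        IsIID Ω P μ ε → (∀ x, μ x ≤ 1 - η) → ∀ n : ℕ, 1 ≤ n →
          (∀ j m : ℕ, 1 ≤ m → j ≤ m → (m : ℝ) ≤ θ * n → ∀ G : Finset (ZMod p)[X],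
            (∀ h ∈ G, h.Monic ∧ h.natDegree = j ∧ h.coeff 0 ≠ 0) →
              c * ((G.card : ℝ) / (p : ℝ) ^ j / m) - A * Real.exp (-c * Real.sqrt n) ≤
                P.real {ω | Rough m G (f ε n ω)} ∧
              P.real {ω | Rough m G (f ε n ω)} ≤
                A * ((G.card : ℝ) / (p : ℝ) ^ j / m + Real.exp (-c * Real.sqrt n))) ∧
          (∀ j : ℕ, (j : ℝ) ≤ θ * n → ∀ G : Finset (ZMod p)[X],
            (∀ h ∈ G, h.Monic ∧ h.natDegree = j ∧ h.coeff 0 ≠ 0) →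
              P.real {ω | Shape G (f ε n ω)} ≤
                A * ((G.card : ℝ) / (p : ℝ) ^ j / n + Real.exp (-c * Real.sqrt n))) ∧
          (∀ k : ℕ, P.real {ω | Large k (f ε n ω)} ≤ A * (((k : ℝ) + 1) / n)) := by
  classical
  obtain ⟨A₄, hA₄, H₄⟩ := gap_large (p := p) hη
  obtain ⟨A₅, c₅, θ₅, hA₅, hc₅, hθ₅, H₅⟩ := gap_shape (p := p) hη
  obtain ⟨A₆, c₆, c₇, θ₆, hA₆, hc₆, hc₇, hθ₆, H₆⟩ := gap_rough (p := p) hη
  set c : ℝ := min c₅ (min c₆ c₇) with hc
  have hc0 : 0 < c := lt_min hc₅ (lt_min hc₆ hc₇)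
  have hcle5 : c ≤ c₅ := min_le_left _ _
  have hcle6 : c ≤ c₆ := (min_le_right _ _).trans (min_le_left _ _)
  have hcle7 : c ≤ c₇ := (min_le_right _ _).trans (min_le_right _ _)
  refine ⟨A₄ + A₅ + A₆, c, min θ₅ θ₆, by positivity, hc0, lt_min hθ₅ hθ₆,
    fun Ω _ P μ ε h hμ n hn => ?_⟩
  have hL : Law η μ := ⟨law_nonneg h, law_sum h, hμ⟩
  have hn0 : (0 : ℝ) < n := by exact_mod_cast hn
  have hnn : ((n + 1 : ℕ) : ℝ) = (n : ℝ) + 1 := by push_cast; ring
  have hp := Pool.Agent.MP6cc1fa.sm4_p_pos (p := p)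
  have hexp : ∀ c' : ℝ, c ≤ c' →
      Real.exp (-c' * Real.sqrt ((n + 1 : ℕ) : ℝ)) ≤ Real.exp (-c * Real.sqrt n) := by
    intro c' hc'
    rw [Real.exp_le_exp, hnn]
    have h2 : Real.sqrt n ≤ Real.sqrt ((n : ℝ) + 1) := Real.sqrt_le_sqrt (by linarith)
    have h3 : 0 ≤ Real.sqrt n := Real.sqrt_nonneg _
    nlinarith
  refine ⟨fun j m hm hjm hmn G hG => ?_, fun j hj G hG => ?_, fun k => ?_⟩
  · have h1 : P.real {ω | Rough m G (f ε n ω)} = PR μ (n + 1) (RF p m G) := by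
      rw [← real_eq h]
      simp only [rough_iff]
    rw [h1]
    have hm' : (m : ℝ) ≤ θ₆ * ((n + 1 : ℕ) : ℝ) := by
      rw [hnn]
      have h1 : min θ₅ θ₆ * (n : ℝ) ≤ θ₆ * n :=
        mul_le_mul_of_nonneg_right (min_le_right _ _) hn0.le
      linarith
    have hm0 : (0 : ℝ) < m := by exact_mod_cast hm
    obtain ⟨h2, h3⟩ := H₆ μ hL (n + 1) j m hm hjm hm' G hG
    have h4 := hexp c₆ hcle6
    have h5 : 0 < Real.exp (-c * Real.sqrt n) := Real.exp_pos _
    have h6 : 0 < Real.exp (-c₆ * Real.sqrt ((n + 1 : ℕ) : ℝ)) := Real.exp_pos _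
    constructor
    · refine le_trans (sub_le_sub ?_ ?_) h2
      · exact mul_le_mul_of_nonneg_right hcle7 (by positivity)
      · exact mul_le_mul (by linarith) h4 h6.le (by linarith)
    · refine h3.trans ?_
      exact mul_le_mul (by linarith) (add_le_add le_rfl h4) (by positivity) (by linarith)
  · have h1 : P.real {ω | Shape G (f ε n ω)} = PR μ (n + 1) (CF p G) := by
      rw [← real_eq h]
      rfl
    rw [h1]
    have hj' : (j : ℝ) ≤ θ₅ * ((n + 1 : ℕ) : ℝ) := by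
      rw [hnn]
      have h1 : min θ₅ θ₆ * (n : ℝ) ≤ θ₅ * n :=
        mul_le_mul_of_nonneg_right (min_le_left _ _) hn0.le
      linarith
    refine (H₅ μ hL (n + 1) j hj' G hG).trans ?_
    have h2 : (G.card : ℝ) / (p : ℝ) ^ j / (((n + 1 : ℕ) : ℝ) + 1) ≤
        (G.card : ℝ) / (p : ℝ) ^ j / n := by
      refine div_le_div_of_nonneg_left (by positivity) hn0 ?_
      rw [hnn]; linarith
    exact mul_le_mul (by linarith) (add_le_add h2 (hexp c₅ hcle5)) (by positivity)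
      (by linarith)
  · have h1 : P.real {ω | Large k (f ε n ω)} = PR μ (n + 1) (LF p k) := by
      rw [← real_eq h]
      simp only [large_iff]
    rw [h1]
    refine (H₄ μ hL (n + 1) k).trans ?_
    have h2 : ((k : ℝ) + 1) / (((n + 1 : ℕ) : ℝ) + 1) ≤ ((k : ℝ) + 1) / n := by
      refine div_le_div_of_nonneg_left (by positivity) hn0 ?_
      rw [hnn]; linarith
    exact mul_le_mul (by linarith) h2 (by positivity) (by linarith)

end

end Pool.Agent.Results.MP_6cc1fa_pr.LargestFactor
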