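import Pool.Agent.Lib.MP_6cc1fa_pr.Cor

/-!
# MP_6cc1fa_pr: the Poisson-Dirichlet limit in the entropy class

`PDLimit p μ` is the statement of the problem for the prime `p` and the distribution `μ`. It is
proved for every mixture `μ = ∑ j, lam j * ‖z j‖ ^ 2` of pure states `z j` whose Fourier transforms
have average Shannon entropy less than `(1/4) log p`, with four explicit consequences.
-/

open Finset MeasureTheory ProbabilityTheory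

namespace Pool.Agent.Results.MP_6cc1fa_pr.PDEntropy

open Pool.Agent.MP6cc1fa

open Classical in
theorem result :
    (∀ (p : ℕ) [Fact p.Prime] (μ : ZMod p → ℝ) (J : Type) [Fintype J] (lam : J → ℝ)
      (z : J → ZMod p → ℂ), (∀ j, 0 ≤ lam j) → ∑ j, lam j = 1 → (∀ j, ∑ x : ZMod p, ‖z j x‖ ^ 2 = 1) →
      (∀ x, ∑ j, lam j * ‖z j x‖ ^ 2 = μ x) →
      ∑ j, lam j * ∑ a : ZMod p,
        Real.negMulLog (‖∑ x : ZMod p, z j x * ZMod.stdAddChar (-(a * x))‖ ^ 2 / p) <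
        Real.log p / 4 → PDLimit p μ) ∧
    (∀ (p : ℕ) [Fact p.Prime] (μ : ZMod p → ℝ), ∑ x, μ x = 1 →
      (∀ x, 3 / (4 * (p : ℝ)) < μ x) → PDLimit p μ) ∧
    (∀ μ : ZMod 2 → ℝ, ∑ x, μ x = 1 → 0.301 ≤ μ 1 → μ 1 ≤ 0.699 → PDLimit 2 μ) ∧
    (∃ K : ℝ, 0 < K ∧ ∀ (p : ℕ) [Fact p.Prime] (N : ℕ) (x0 r : ZMod p), r ≠ 0 → N ≤ p →
      K * (p : ℝ) ^ (3 / 4 : ℝ) ≤ N →
      PDLimit p (fun x => if ∃ j : ℕ, j < N ∧ x = x0 + j * r then 1 / (N : ℝ) else 0)) ∧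
    (∀ δ : ℝ, 0 < δ → ∃ p0 : ℕ, ∀ (p : ℕ) [Fact p.Prime], p0 ≤ p →
      (Measure.pi (fun _ : ZMod p => expMeasure 1))
        {w : ZMod p → ℝ | ¬ PDLimit p (fun x => w x / ∑ y, w y)} ≤ ENNReal.ofReal δ) := by
  refine ⟨?_, ?_, ?_, pd_ap, pd_typ⟩
  · intro p _ μ J _ lam z h1 h2 h3 h4 h5
    exact pd_mix μ lam z h1 h2 h3 h4 h5
  · intro p _ μ h1 h2
    exact pd_min μ h1 h2
  · intro μ h1 h2 h3
    refine pd_two μ (fun x => ?_) h1 h2 h3
    have hs : ∑ x : ZMod 2, μ x = μ 0 + μ 1 := Fin.sum_univ_two (fun x : Fin 2 => μ x)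
    rw [hs] at h1
    have h0 : ∀ x : Fin 2, 0 ≤ μ x := by
      intro x
      fin_cases x
      · show 0 ≤ μ 0
        linarith
      · show 0 ≤ μ 1
        linarith
    exact h0 x

end Pool.Agent.Results.MP_6cc1fa_pr.PDEntropy
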