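import Pool.Agent.Lib.MP_6cc1fa_pr.SM.SM8
import Pool.Agent.Lib.MP_6cc1fa_pr.Wrap

/-!
MP_6cc1fa_pr: the small irreducible factors of random polynomials over `F_p`.

For every prime `p` and all coefficient distributions `μ` with `max μ ≤ 1 - η` the joint law of
all irreducible factors (other than `X`) of degree at most `m` of `f_n = ∑_{i ≤ n} ε_i X^i` is
within total variation distance `C (exp (-c n / m) + exp (-c √n))` of the one of a uniform monic
polynomial of degree `n`.  In particular the vectors `(N_i)_{i ≤ m_n}` and `(N_i')_{i ≤ m_n}` have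
asymptotically the same laws whenever `m_n = o(n)`.
-/

set_option autoImplicit false

namespace Pool.Agent.Results.MP_6cc1fa_pr.SmallFactors

open Polynomial MeasureTheory ProbabilityTheory UniqueFactorizationMonoid

noncomputable section

/-- The multiset of the monic irreducible factors of `f`, other than `X`, of degree at most `m`,
each repeated according to its multiplicity in `f` (the empty multiset for `f = 0`). -/
def small {p : ℕ} [Fact p.Prime] (m : ℕ) (f : (ZMod p)[X]) : Multiset (ZMod p)[X] := by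
  classical
  exact (normalizedFactors f).filter fun P => P ≠ X ∧ P.natDegree ≤ m

/-- `N_i(f)`: the number of distinct monic irreducible factors of `f`, other than `X`, of
degree `i`. -/
def N {p : ℕ} [Fact p.Prime] (f : (ZMod p)[X]) (i : ℕ) : ℕ := by
  classical
  exact ((normalizedFactors f).toFinset.filter fun P => P ≠ X ∧ P.natDegree = i).card

/-- `N_i'(f)`: the number of monic irreducible factors of `f`, other than `X`, of degree `i`,
counted with multiplicity. -/
def N' {p : ℕ} [Fact p.Prime] (f : (ZMod p)[X]) (i : ℕ) : ℕ := by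
  classical
  exact ((normalizedFactors f).filter fun P => P ≠ X ∧ P.natDegree = i).card

/-- The vector `(v_i)_{i ≤ m}`, extended by zeros. -/
def upto (m : ℕ) (v : ℕ → ℕ) : ℕ → ℕ := fun i => if i ≤ m then v i else 0

/-- The random polynomial `f_n = ∑_{i ≤ n} ε_i X^i`. -/
def f {p : ℕ} {Ω : Type} (ε : ℕ → Ω → ZMod p) (n : ℕ) (ω : Ω) : (ZMod p)[X] :=
  ∑ i ∈ Finset.range (n + 1), C (ε i ω) * X ^ i

/-- The probability that a uniform random monic polynomial of degree `n` over `F_p` lies in `S`. -/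
def unif {p : ℕ} [Fact p.Prime] (n : ℕ) (S : Set (ZMod p)[X]) : ℝ :=
  (Nat.card {g : (ZMod p)[X] // (g.Monic ∧ g.natDegree = n) ∧ g ∈ S} : ℝ) / (p : ℝ) ^ n

/-- The coefficients `ε_0, ε_1, …` are independent random variables with law `μ` on the
probability space `(Ω, P)`. -/
structure IsIID {p : ℕ} (Ω : Type) [MeasurableSpace Ω] (P : Measure Ω) (μ : ZMod p → ℝ)
    (ε : ℕ → Ω → ZMod p) : Prop where
  prob : IsProbabilityMeasure P
  meas : ∀ i, Measurable (ε i)
  indep : iIndepFun ε P
  law : ∀ i x, P.real {ω | ε i ω = x} = μ x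

open Pool.Agent.MP6cc1fa (smo muh MD mon pol err level_dist smooth_tv)

variable {p : ℕ} [Fact p.Prime]

open Classical in
theorem small_eq (m : ℕ) (g : (ZMod p)[X]) :
    small m g = (normalizedFactors g).filter fun P => P ≠ X ∧ P.natDegree ≤ m := by
  unfold small
  congr

theorem small_smo (m : ℕ) (g : (ZMod p)[X]) : normalizedFactors (smo m g) = small m g := by
  classical
  rw [small_eq, Pool.Agent.MP6cc1fa.sm8_nf_smo]

open Classical in
theorem unif_eq (n m : ℕ) (T : Set (Multiset (ZMod p)[X])) :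
    unif n {g : (ZMod p)[X] | small m g ∈ T} =
      (∑ a : Fin n → ZMod p, if smo m (mon a) ∈ {A | normalizedFactors A ∈ T} then (1 : ℝ) else 0) /
        (p : ℝ) ^ n := by
  unfold unif
  congr 1
  rw [Pool.Agent.MP6cc1fa.sm8_sum_mon, ← Finset.sum_filter, Finset.sum_const, nsmul_eq_mul, mul_one]
  norm_cast
  rw [← Nat.card_eq_finsetCard]
  refine Nat.card_congr (Equiv.subtypeEquivRight fun g => ?_)
  rw [Finset.mem_filter, Pool.Agent.MP6cc1fa.mem_MD]
  simp only [Set.mem_ofPred_eq, small_smo]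

open Classical in
theorem real_eq {Ω : Type} [MeasurableSpace Ω] {P : Measure Ω} {μ : ZMod p → ℝ}
    {ε : ℕ → Ω → ZMod p} (h : IsIID Ω P μ ε) (n m : ℕ) (T : Set (Multiset (ZMod p)[X])) :
    P.real {ω | small m (f ε n ω) ∈ T} =
      ∑ a : Fin (n + 1) → ZMod p, if smo m (pol a) ∈ {A | normalizedFactors A ∈ T} then
        ∏ i, μ (a i) else 0 := by
  have := h.prob
  have h1 := Pool.Agent.MP6cc1fa.integral_eq_EE μ Ω P ε h.meas h.indep h.law
    (fun g => if small m g ∈ T then (1 : ℝ) else 0) (n + 1)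
  have hmeas : MeasurableSet {ω | small m (f ε n ω) ∈ T} := by
    have hX : Measurable (fun ω (i : Fin (n + 1)) => ε (i : ℕ) ω) :=
      measurable_pi_iff.2 fun i => h.meas i
    have e : {ω | small m (f ε n ω) ∈ T} = (fun ω (i : Fin (n + 1)) => ε (i : ℕ) ω) ⁻¹'
        {a | small m (∑ i : Fin (n + 1), C (a i) * X ^ (i : ℕ)) ∈ T} := by
      ext ω
      simp only [Set.mem_ofPred_eq, Set.mem_preimage, f]
      rw [Fin.sum_univ_eq_sum_range (fun i => C (ε i ω) * X ^ i) (n + 1)]
    rw [e]
    exact hX (Set.toFinite _).measurableSet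
  have h2 : P.real {ω | small m (f ε n ω) ∈ T} =
      ∫ ω, (if small m (∑ i ∈ Finset.range (n + 1), C (ε i ω) * X ^ i) ∈ T then (1 : ℝ) else 0)
        ∂P := by
    rw [← integral_indicator_one hmeas]
    refine integral_congr_ae (Filter.Eventually.of_forall fun ω => ?_)
    simp only [Set.indicator, Set.mem_ofPred_eq, f, Pi.one_apply]
  rw [h2, h1]
  unfold _root_.MP6cc1fa.EE
  refine Finset.sum_congr rfl fun a _ => ?_
  have h3 : small m (_root_.MP6cc1fa.poly a) ∈ T ↔
      smo m (pol a) ∈ {A | normalizedFactors A ∈ T} := by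
    rw [Set.mem_ofPred_eq, small_smo]
    rfl
  by_cases h4 : smo m (pol a) ∈ {A | normalizedFactors A ∈ T}
  · rw [if_pos h4]
    simp only
    rw [if_pos (h3.2 h4), mul_one]
  · rw [if_neg h4]
    simp only
    rw [if_neg (fun h5 => h4 (h3.1 h5)), mul_zero]

theorem law_nonneg {Ω : Type} [MeasurableSpace Ω] {P : Measure Ω} {μ : ZMod p → ℝ}
    {ε : ℕ → Ω → ZMod p} (h : IsIID Ω P μ ε) (x : ZMod p) : 0 ≤ μ x := by
  rw [← h.law 0 x]
  exact measureReal_nonneg

theorem law_sum {Ω : Type} [MeasurableSpace Ω] {P : Measure Ω} {μ : ZMod p → ℝ}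
    {ε : ℕ → Ω → ZMod p} (h : IsIID Ω P μ ε) : ∑ x, μ x = 1 := by
  have := h.prob
  have h1 := Pool.Agent.MP6cc1fa.integral_eq_EE μ Ω P ε h.meas h.indep h.law
    (fun _ => (1 : ℝ)) 1
  unfold _root_.MP6cc1fa.EE at h1
  simp only [mul_one, integral_const, probReal_univ, smul_eq_mul] at h1
  have h2 : ∑ a : Fin 1 → ZMod p, ∏ i, μ (a i) = ∏ _i : Fin 1, ∑ x, μ x := by
    rw [Finset.prod_univ_sum, Fintype.piFinset_univ]
  rw [h2] at h1
  simpa using h1.symm

/-- The small factors determine the numbers `N_i`. -/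
theorem N_small {m M : ℕ} (hM : m ≤ M) : ∃ F : Multiset (ZMod p)[X] → ℕ → ℕ,
    ∀ g : (ZMod p)[X], upto m (N g) = F (small M g) := by
  classical
  refine ⟨fun s => upto m fun i => (s.toFinset.filter fun P => P.natDegree = i).card, fun g => ?_⟩
  funext i
  by_cases hi : i ≤ m
  · simp only [upto, if_pos hi, N, small_eq]
    refine congrArg Finset.card ?_
    ext P
    simp only [Finset.mem_filter, Multiset.mem_toFinset, Multiset.mem_filter]
    constructor
    · rintro ⟨h1, h2, h3⟩
      exact ⟨⟨h1, h2, by omega⟩, h3⟩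
    · rintro ⟨⟨h1, h2, -⟩, h3⟩
      exact ⟨h1, h2, h3⟩
  · simp only [upto, if_neg hi]

/-- The small factors determine the numbers `N_i'`. -/
theorem N'_small {m M : ℕ} (hM : m ≤ M) : ∃ F : Multiset (ZMod p)[X] → ℕ → ℕ,
    ∀ g : (ZMod p)[X], upto m (N' g) = F (small M g) := by
  classical
  refine ⟨fun s => upto m fun i => (s.filter fun P => P.natDegree = i).card, fun g => ?_⟩
  funext i
  by_cases hi : i ≤ m
  · simp only [upto, if_pos hi, N', small_eq, Multiset.filter_filter]
    refine congrArg Multiset.card (Multiset.filter_congr fun P _ => ?_)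
    constructor
    · rintro ⟨h2, h3⟩
      exact ⟨h3, h2, by omega⟩
    · rintro ⟨h3, h2, -⟩
      exact ⟨h2, h3⟩
  · simp only [upto, if_neg hi]

/-- Main theorem. -/
theorem main {η : ℝ} (hη : 0 < η) : ∃ A c : ℝ, 0 < A ∧ 0 < c ∧
    ∀ (Ω : Type) [MeasurableSpace Ω] (P : Measure Ω) (μ : ZMod p → ℝ) (ε : ℕ → Ω → ZMod p),
      IsIID Ω P μ ε → (∀ x, μ x ≤ 1 - η) → ∀ n m : ℕ, 1 ≤ n → 1 ≤ m →
        ∀ T : Set (Multiset (ZMod p)[X]),
          |P.real {ω | small m (f ε n ω) ∈ T} - unif n {g : (ZMod p)[X] | small m g ∈ T}| ≤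
            A * (Real.exp (-c * n / m) + Real.exp (-c * Real.sqrt n)) := by
  classical
  obtain ⟨A, c, hA, hc, H⟩ := smooth_tv (p := p) hη
  refine ⟨A, c, hA, hc, fun Ω _ P μ ε h hμ n m hn hm T => ?_⟩
  have h1 := H μ (law_nonneg h) (law_sum h) hμ n m hn hm {A | normalizedFactors A ∈ T}
  rw [real_eq h, unif_eq]
  convert h1 using 5

open Filter Topology in
/-- **Small factors of random polynomials over `F_p`, for all primes `p` and all coefficient
distributions.**  (i) Total variation bound for the multiset of the irreducible factors other than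
`X` of degree at most `m`, uniformly in the distributions `μ` with `max μ ≤ 1 - η`.  (ii) In
particular the laws of `(N_i)_{i ≤ m_n}`, and of `(N_i')_{i ≤ m_n}`, for `f_n` and for a uniform
monic polynomial of degree `n` are asymptotically equal in total variation if `m_n = o(n)`. -/
theorem result (p : ℕ) [Fact p.Prime] (η : ℝ) (hη : 0 < η) :
    (∃ A c : ℝ, 0 < A ∧ 0 < c ∧
      ∀ (Ω : Type) [MeasurableSpace Ω] (P : Measure Ω) (μ : ZMod p → ℝ) (ε : ℕ → Ω → ZMod p),
        IsIID Ω P μ ε → (∀ x, μ x ≤ 1 - η) → ∀ n m : ℕ, 1 ≤ n → 1 ≤ m →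
          ∀ T : Set (Multiset (ZMod p)[X]),
            |P.real {ω | small m (f ε n ω) ∈ T} - unif n {g : (ZMod p)[X] | small m g ∈ T}| ≤
              A * (Real.exp (-c * n / m) + Real.exp (-c * Real.sqrt n))) ∧
    (∀ m : ℕ → ℕ, Tendsto (fun n : ℕ => (m n : ℝ) / n) atTop (𝓝 0) → ∀ δ : ℝ, 0 < δ →
      ∀ᶠ n in atTop,
        ∀ (Ω : Type) [MeasurableSpace Ω] (P : Measure Ω) (μ : ZMod p → ℝ) (ε : ℕ → Ω → ZMod p),
          IsIID Ω P μ ε → (∀ x, μ x ≤ 1 - η) → ∀ T : Set (ℕ → ℕ),
            |P.real {ω | upto (m n) (N (f ε n ω)) ∈ T} -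
              unif n {g : (ZMod p)[X] | upto (m n) (N g) ∈ T}| ≤ δ ∧
            |P.real {ω | upto (m n) (N' (f ε n ω)) ∈ T} -
              unif n {g : (ZMod p)[X] | upto (m n) (N' g) ∈ T}| ≤ δ) := by
  classical
  refine ⟨main hη, fun m hm δ hδ => ?_⟩
  obtain ⟨A, c, hA, hc, H⟩ := main (p := p) hη
  -- the bound tends to zero
  have hmax : Tendsto (fun n : ℕ => ((max (m n) 1 : ℕ) : ℝ) / n) atTop (𝓝 0) := by
    have h1 : Tendsto (fun n : ℕ => (m n : ℝ) / n + 1 / n) atTop (𝓝 (0 + 0)) :=
      hm.add tendsto_one_div_atTop_nhds_zero_nat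
    rw [add_zero] at h1
    refine squeeze_zero (fun n => by positivity) (fun n => ?_) h1
    rw [← add_div]
    refine div_le_div_of_nonneg_right ?_ (Nat.cast_nonneg n)
    push_cast
    exact max_le (by linarith) (by
      have : (0 : ℝ) ≤ m n := Nat.cast_nonneg _
      linarith)
  have hinv : Tendsto (fun n : ℕ => (n : ℝ) / (max (m n) 1 : ℕ)) atTop atTop := by
    have h1 : Tendsto (fun n : ℕ => (((max (m n) 1 : ℕ) : ℝ) / n)⁻¹) atTop atTop := by
      refine Tendsto.inv_tendsto_nhdsGT_zero ?_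
      refine tendsto_nhdsWithin_iff.2 ⟨hmax, ?_⟩
      filter_upwards [eventually_gt_atTop 0] with n hn
      have h2 : (0 : ℝ) < n := by exact_mod_cast hn
      have h3 : (0 : ℝ) < (max (m n) 1 : ℕ) := by
        have : 0 < max (m n) 1 := by omega
        exact_mod_cast this
      exact div_pos h3 h2
    refine h1.congr fun n => ?_
    rw [inv_div]
  have hbound : Tendsto (fun n : ℕ => A * (Real.exp (-c * n / (max (m n) 1 : ℕ)) +
      Real.exp (-c * Real.sqrt n))) atTop (𝓝 (A * (0 + 0))) := by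
    refine Tendsto.const_mul _ (Tendsto.add ?_ ?_)
    · refine Real.tendsto_exp_atBot.comp ?_
      have h1 := hinv.const_mul_atTop_of_neg (r := -c) (by linarith)
      refine h1.congr fun n => ?_
      ring
    · refine Real.tendsto_exp_atBot.comp ?_
      have h1 : Tendsto (fun n : ℕ => Real.sqrt n) atTop atTop :=
        Real.tendsto_sqrt_atTop.comp tendsto_natCast_atTop_atTop
      exact h1.const_mul_atTop_of_neg (by linarith)
  rw [add_zero, mul_zero] at hbound
  filter_upwards [hbound.eventually (gt_mem_nhds hδ), eventually_ge_atTop 1] with n hn hn1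
  intro Ω _ P μ ε h hμ T
  have hm1 : 1 ≤ max (m n) 1 := by omega
  have key := H Ω P μ ε h hμ n (max (m n) 1) hn1 hm1
  obtain ⟨F, hF⟩ := N_small (p := p) (le_max_left (m n) 1)
  obtain ⟨F', hF'⟩ := N'_small (p := p) (le_max_left (m n) 1)
  refine ⟨?_, ?_⟩
  · simp only [hF]
    exact (key {s | F s ∈ T}).trans hn.le
  · simp only [hF']
    exact (key {s | F' s ∈ T}).trans hn.le

end

end Pool.Agent.Results.MP_6cc1fa_pr.SmallFactors
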